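import Pool.Agent.LocT.Avg
import Pool.Agent.LocT.ConvGuess
import Pool.Agent.RC.HiddenRealCount

/-!
# Circuits with real gates must see many zeros inside every set: one language in NP and time O(2^n)

Definitions. A partly hidden word is a function `p : Fin n → Option Bool`; the bit `v` is hidden if
`p v = none`. `hide U Z x` (`Pool/Agent/NWE/Kleene.lean`) is the word `x` whose zeros in `U` are
hidden, except those in `Z`. `AccSees U u D x` (`Pool/Agent/GB24/HiddenUDefs.lean`): some device `D y`
accepts `hide U Z x` for some set `Z` of at most `u` zeros of `x` in `U`. `RightSees f U u D x` (`Pool/Agent/AVZ/Main.lean`): `f x` holds and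
`AccSees U u D x`, or `f x` does not hold and no `D y` accepts `x`.

`ICircuit`, `IGate` (`Pool/Agent/RC/Ival.lean`): circuits whose gates are real functions of the values
of two wires, increasing or decreasing in each of them; `size` is the number of gates, `C.val x o` the
value of the wire `o` at the input `x` (a variable has the value `0` or `1`), `C.range p o` the two
ends of the interval computed by interval arithmetic for the wire `o` at the partly hidden input `p`
(a hidden variable has the interval `[0, 1]`). A circuit accepts if the value is positive, and accepts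
`p` if the lower end of the interval is positive.

`kleene C p o` (`Pool/Agent/NWE/Kleene.lean`): the value of the wire `o` of the circuit `C` (`Circuit`,
`Wire` in `Pool/Agent/NegLim/Defs.lean`: AND, OR, NOT gates) at the partly hidden input `p` in Kleene's
three-valued logic.

`InNP`, `DecidableInTime` (`Pool/Agent/NegLim/Language.lean`): by Mathlib's Turing machines `FinTM2`.
-/

namespace Pool.Agent.Results.MP_5f97e6_lc.HiddenZeros

open Pool.Agent.NegLim Pool.Agent.NWE Pool.Agent.GB24 Pool.Agent.GB24.Loc Pool.Agent.RC
  Pool.Agent.LocT Pool.Agent.AVZ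

open Classical in
/-- First part, (1), (2): one language for all sizes. First the average case, then the count.  `k` is the number of variables in `U`, `m` the number
of blocks, `Y` the guesses, `A` the number of accepting guesses per word, `u` the number of zeros seen.

Second part: every function of `n` variables has a real circuit with `n + 1` gates; every circuit with
AND, OR, NOT gates is, with Kleene's logic, a real circuit of the same size with interval arithmetic.

Third part, (2): for every circuit with AND, OR, NOT gates for a monotone function `f` and every set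
`U` there is one with fewer than `2 ^ |U| (size + 2)` gates which accepts each `x` with `f x = true`
with all its zeros in `U` hidden.

Fourth part, (2): for nondeterministic circuits (guess bits `B`, at most `A` accepting guesses) for a
monotone function there is such a nondeterministic circuit with `size + |U|` gates and at most
`2 ^ |U| A` accepting guesses. -/
theorem result :
    (∃ (C₀ : ℕ) (L : List Bool → Bool), InNP L ∧
      (∃ c : ℕ, DecidableInTime L (fun n => c * 2 ^ n)) ∧
      (∀ n : ℕ, Monotone fun x : Fin n → Bool => L (List.ofFn x)) ∧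
      ∀ (n s k : ℕ) (U : Finset (Fin n)), U.card = k → 0 < k →
        (∃ (ρ : Fin n → Bool) (μ : (Fin n → Bool) → ℝ), (∀ x, 0 ≤ μ x) ∧ ∑ x, μ x = 1 ∧
          (∀ x, μ x ≠ 0 → ∀ v, v ∉ U → x v = ρ v) ∧
          ∀ (Y : Type) [Fintype Y] (u : ℕ) (C : Y → ICircuit (Fin n)) (o : Y → Wire (Fin n)),
            (∀ y, (C y).size ≤ 2 ^ s) →
            (∀ x : Fin n → Bool, (∀ v, v ∉ U → x v = ρ v) →
              {y | 0 < (C y).val x (o y)}.ncard ≤ 2 ^ s) →
            ∑ x with RightSees (fun x => L (List.ofFn x) = true) U u
              (fun y p => decide (0 < ((C y).range p (o y)).1)) x, μ x ≤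
                1 / 2 + (u + 1) *
                  ((C₀ * (s + (Nat.log 2 n + 1)) ^ 2 * (Nat.log 2 n + 1) ^ 5 : ℕ) : ℝ) / k) ∧
        (C₀ * (s + (Nat.log 2 n + 1)) ^ 2 * (Nat.log 2 n + 1) ^ 5 ≤ k →
        ∃ (ρ : Fin n → Bool) (H : Finset (Fin n → Bool)), H.Nonempty ∧
          (∀ x ∈ H, L (List.ofFn x) = true ∧ ∀ v, v ∉ U → x v = ρ v) ∧
          ∀ (Y : Type) [Fintype Y] (u A : ℕ) (C : Y → ICircuit (Fin n)) (o : Y → Wire (Fin n)),
            (∀ y, (C y).size ≤ 2 ^ s) →
            (∀ x : Fin n → Bool, (∀ v, v ∉ U → x v = ρ v) →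
              {y | 0 < (C y).val x (o y)}.ncard ≤ A ∧
                ∀ y, 0 < (C y).val x (o y) → L (List.ofFn x) = true) →
            (2 ^ s) ^ (k / (C₀ * (s + (Nat.log 2 n + 1)) ^ 2 * (Nat.log 2 n + 1) ^ 5)) *
              {x | x ∈ H ∧ AccSees U u (fun y p => decide (0 < ((C y).range p (o y)).1)) x}.ncard
                ≤ A * (k + 1) ^ (2 * u) * H.card)) ∧
    (∀ (V : Type) [Fintype V] [DecidableEq V],
      (∀ f : (V → Bool) → Bool, ∃ (C : ICircuit V) (o : Wire V),
        C.size = Fintype.card V + 1 ∧ ∀ x, C.val x o = if f x then 1 else 0) ∧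
      ∀ (C : Circuit V) (o : Wire V), ∃ D : ICircuit V, D.size = C.size ∧
        ∀ p, decide (0 < (D.range p o).1) = (kleene C p o == some true)) ∧
    (∀ (V : Type) [Fintype V] [DecidableEq V] (f : (V → Bool) → Bool), Monotone f →
      ∀ (U : Finset V) (C : Circuit V) (a : Wire V), (∀ x, C.val x a = f x) →
        ∃ (D : Circuit V) (b : Wire V), D.size + 2 ≤ 2 ^ U.card * (C.size + 2) ∧
          (∀ x, D.val x b = f x) ∧ ∀ x, f x = true → kleene D (hide U ∅ x) b = some true) ∧
    ∀ (V B : Type) [Fintype V] [DecidableEq V] [Fintype B] (f : (V → Bool) → Bool), Monotone f →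
      ∀ (U : Finset V) (A : ℕ) (C : Circuit (V ⊕ B)) (a : Wire (V ⊕ B)),
        (∀ x, f x = true ↔ ∃ y : B → Bool, C.val (Sum.elim x y) a = true) →
        (∀ x, {y : B → Bool | C.val (Sum.elim x y) a = true}.ncard ≤ A) →
        ∃ (D : Circuit (V ⊕ (B ⊕ {v // v ∈ U}))) (b : Wire (V ⊕ (B ⊕ {v // v ∈ U}))),
          D.size = C.size + U.card ∧
            (∀ x, f x = true ↔ ∃ y, D.val (Sum.elim x y) b = true) ∧
              (∀ x, {y | D.val (Sum.elim x y) b = true}.ncard ≤ 2 ^ U.card * A) ∧
                ∀ x, f x = true → ∃ y : B ⊕ {v // v ∈ U} → Bool,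
                  kleene D (Sum.elim (hide U ∅ x) fun g => some (y g)) b = some true := by
  refine ⟨?_, fun _ _ _ => ⟨exists_ival, fun C o => ⟨C.map ivalGate, List.length_map _,
      fun p => by rw [kleene_range, ivK_pos]⟩⟩, ?_, ?_⟩
  · obtain ⟨C₀, L, h1, h2, h3, h4⟩ := mainV
    refine ⟨C₀, L, h1, h2, h3, fun n s k U hk hk0 => ?_⟩
    subst hk
    have e1 : ∀ (C : ICircuit (Fin n)) (o : Wire (Fin n)) (x : Fin n → Bool),
        decide (0 < (C.range (fun v => some (x v)) o).1) = true ↔ 0 < C.val x o := by
      intro C o x
      rw [range_some]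
      simp
    obtain ⟨a1, a2⟩ := h4 n s U (Finset.card_pos.mp hk0)
    constructor
    · obtain ⟨ρ, μ, m0, m1, m2, m3⟩ := a1
      refine ⟨ρ, μ, m0, m1, m2, fun Y _ u C o hC hA => ?_⟩
      refine (m3 Y u (fun y p => decide (0 < ((C y).range p (o y)).1))
        (fun y => ⟨C y, o y, hC y, fun _ => rfl⟩) fun x hx => ?_).trans (le_of_eq ?_)
      · have h13 : {y | decide (0 < ((C y).range (fun v => some (x v)) (o y)).1) = true} =
            {y | 0 < (C y).val x (o y)} := by
          ext y
          exact e1 (C y) (o y) x
        rw [h13]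
        exact hA x hx
      · ring
    · intro hU
      obtain ⟨ρ, H, g1, g2, g3⟩ := a2 hU
      refine ⟨ρ, H, g1, g2, fun Y _ u A C o hC hf => ?_⟩
      have h := g3 Y u A (fun y p => decide (0 < ((C y).range p (o y)).1))
        (fun y => ⟨C y, o y, hC y, fun _ => rfl⟩) (by
          intro x hx
          refine ⟨?_, fun y hy => (hf x hx).2 y ((e1 (C y) (o y) x).1 hy)⟩
          have h12 := (hf x hx).1
          have h13 : {y | decide (0 < ((C y).range (fun v => some (x v)) (o y)).1) = true} =
              {y | 0 < (C y).val x (o y)} := by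
            ext y
            exact e1 (C y) (o y) x
          rw [h13]
          exact h12)
      refine h.trans (le_of_eq ?_)
      rw [pow_mul, pow_two]
  · intro V _ _ f hf U C a hC
    obtain ⟨D, b, h1, h2, h3, -⟩ := exists_blind f hf U C a hC
    exact ⟨D, b, h1, h2, h3⟩
  · intro V B _ _ _ f hf U A C a hC hA
    exact conv_guess_kleene f hf U C a hC hA

end Pool.Agent.Results.MP_5f97e6_lc.HiddenZeros
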