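import Pool.Agent.GE.FewP
import Pool.Agent.XL.NetBlind
import Pool.Agent.XL.DNetBlind
import Pool.Agent.XL.CompBlind

/-!
# A monotone language in P of whose words small networks must see many zeros in every set of positions

Definitions.

`InP L` (`Pool/Agent/GE/Defs.lean`): the language with characteristic function `L` is in P: a Turing
machine (Mathlib's `FinTM2`) decides it in polynomial time.

`Net κ S` (`Pool/Agent/TeleNeg/NetDefs.lean`): a network with `S` nodes, a source, a target and
contacts between nodes, each labelled by an element of `κ` or always closed. `Net.val`: the target is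
connected with the source by closed contacts used in both directions (switching network); formulas
and deterministic branching programs are of this kind. `Net.dval`
(`Pool/Agent/TeleNeg/DirDefs.lean`): the target can be reached from the source by closed contacts
used in their direction (nondeterministic branching program).

`CompCirc κ S` (`Pool/Agent/XL/CompDefs.lean`): a comparator circuit with `S` wires: every wire starts
with the value of an element of `κ` or with a constant, a gate puts the AND and the OR of the values of
two wires on these wires; `CompCirc.val`: the value of one wire after all gates.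

`SpanProgram F κ S` (`Pool/Agent/XL/Span.lean`): `S` vectors over the field `F`, each labelled by an
element of `κ` or always present, and a target vector; `SpanProgram.val`: the target is in the span
of the present vectors.

`Small2 k G` (`Pool/Agent/XL/Small2.lean`): `G` is computed by a switching network with at most
`2 ^ k` nodes, or by a comparator circuit with at most `2 ^ k` wires, or by a directed network with at
most `2 ^ √k` nodes, or by a span program with at most `2 ^ k` vectors over a field with `2 ≠ 0`.

`lits x` (`Pool/Agent/NWE/Defs.lean`): the values of the literals (`Sum.inl i` is the variable `i`,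
`Sum.inr i` its negation) at the input `x`. `litsOn U Z x` (same file): the same, but the negated
variables in `U` have the value `0`, except those in `Z`.
-/

namespace Pool.Agent.Results.MP_5f97e6_lc.NetworksLinear

open Pool.Agent.XL Pool.Agent.TeleNeg Pool.Agent.NWE Pool.Agent.GE Finset

/-- (1) There are a constant `C` and a language `L` in P, whose characteristic function on words of
length `n` is monotone for every `n`, such that for all `n`, all `k ≥ 1` and every set `U` of at
least `C k` positions there are a word `ρ` of length `n` and a nonempty set `H` of words of `L` of
length `n` which are equal to `ρ` outside `U`, with the following property.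

Let `D y`, `y ∈ Y` a guess, `Y` any finite set, be small devices on the literals (switching networks
with at most `2 ^ k` nodes, comparator circuits with at most `2 ^ k` wires and any number of gates,
directed networks with at most `2 ^ √k` nodes, span programs with at most `2 ^ k` vectors over fields
of characteristic other than two) such that each word equal to `ρ` outside `U` is accepted by at most
`2 ^ k` of them, and by none if it is not in `L`. Then the words `x` of `H` which some `D y` accepts
with all negated variables in `U` switched off, except those of a set `Z` of zeros of `x` with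
`|Z| ≤ k`, form at most a `2 ^ (-k)` fraction of `H`.

(2) Small sets `U` need not be seen: for every monotone `f` and every set `U` of variables a switching
network, a directed network (with `S` nodes), a comparator circuit (with `S` wires) on the literals for
`f` gives one with `2 ^ |U| S` nodes (wires) which accepts every `x` with `f x = 1` with all negated
variables in `U` switched off. -/
theorem result :
    (∃ (C : ℕ) (L : List Bool → Bool), 1 ≤ C ∧ InP L ∧
      (∀ n : ℕ, Monotone fun x : Fin n → Bool => L (List.ofFn x)) ∧
      ∀ (n k : ℕ) (U : Finset (Fin n)), 1 ≤ k → C * k ≤ U.card →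
        ∃ (ρ : Fin n → Bool) (H : Finset (Fin n → Bool)), H.Nonempty ∧
          (∀ x ∈ H, L (List.ofFn x) = true ∧ ∀ v, v ∉ U → x v = ρ v) ∧
          ∀ (Y : Type) [Fintype Y] (D : Y → (Fin n ⊕ Fin n → Bool) → Bool),
            (∀ y, Small2 k (D y)) →
            (∀ x, (∀ v, v ∉ U → x v = ρ v) → {y | D y (lits x) = true}.ncard ≤ 2 ^ k ∧
              ∀ y, D y (lits x) = true → L (List.ofFn x) = true) →
            ∀ A ⊆ H, (∀ x ∈ A, ∃ (y : Y) (Z : Finset (Fin n)), Z ⊆ U ∧
              (∀ v ∈ Z, x v = false) ∧ Z.card ≤ k ∧ D y (litsOn U Z x) = true) →
            2 ^ k * A.card ≤ H.card) ∧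
    ∀ (ι : Type) [Fintype ι] [DecidableEq ι] (S : ℕ) (f : (ι → Bool) → Bool), Monotone f →
      ∀ U : Finset ι,
        (∀ N : Net (ι ⊕ ι) S, (∀ x, N.val (lits x) = f x) → ∃ N' : Net (ι ⊕ ι) (2 ^ U.card * S),
          (∀ x, N'.val (lits x) = f x) ∧ ∀ x, f x = true → N'.val (litsOn U ∅ x) = true) ∧
        (∀ N : Net (ι ⊕ ι) S, (∀ x, N.dval (lits x) = f x) → ∃ N' : Net (ι ⊕ ι) (2 ^ U.card * S),
          (∀ x, N'.dval (lits x) = f x) ∧ ∀ x, f x = true → N'.dval (litsOn U ∅ x) = true) ∧
        (∀ P : CompCirc (ι ⊕ ι) S, (∀ x, P.val (lits x) = f x) →
          ∃ P' : CompCirc (ι ⊕ ι) (2 ^ U.card * S),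
            (∀ x, P'.val (lits x) = f x) ∧ ∀ x, f x = true → P'.val (litsOn U ∅ x) = true) :=
  ⟨Pool.Agent.GE.main_everyP_few, fun _ _ _ _ f hf U =>
    ⟨fun N => net_blind f hf U N, fun N => dnet_blind f hf U N, fun P => comp_blind f hf U P⟩⟩

end Pool.Agent.Results.MP_5f97e6_lc.NetworksLinear
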