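import Pool.Agent.NBP.Long

/-! One explicit polynomial time language for which nondeterministic branching programs of linear
(and slightly superlinear) length, and circuits with linear justification trees, need exponential
size. -/

namespace Pool.Agent.Results.MP_5f97e6_lc.ProofTreeTradeoff

open Pool.Agent.JT Pool.Agent.NBP

/-- `L` is decided by a Turing machine (Mathlib's `TM2` model) in polynomial time: the machine maps
an input word `w` to the one-letter word `[f w]`, where `f w` is true exactly for the words of `L` -/
def PolyTime (L : List Bool → Prop) : Prop :=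
  ∃ f : List Bool → Bool, (∀ w, f w = true ↔ L w) ∧
    Nonempty (Turing.TM2ComputableInPolyTime (id : List Bool → List Bool)
      (id : List Bool → List Bool) (fun w => [f w]))

/-- There are ONE language `L` in P and a number `c` with the following properties.

(1) Let `ε > 0` and let `N` be large. Let `P` be a nondeterministic branching program with `m`
contacts, each labelled by a literal (`some (i, b)`: closed if the variable `i` has the value `b`) or
by nothing (`none`: always closed). If `P` accepts only words of `L`, and every word of `L` of length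
`N` has an accepting path (a path of closed contacts from the source to the target) with at most
`N (log N) ^ (1 / (c + 1))` literals, then `m ≥ 2 ^ (N ^ (1 - ε))`.

For every `k ≥ 2` some word `π` has the following property for all `N ≥ 2 ^ (k ^ c)`. Let `Y` be any
set of at least `N / k` of the `N` variables (for instance all of them), and let `f j` (`j < m`) be
arbitrary functions of the `N` variables, where `f j` depends only on the variables outside `Y` and
on a set `W j` of at most `N / 2 ^ (k ^ c)` variables (for instance: a literal of the variable `i`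
with `W j = {i}`, or a constant with `W j = ∅`).

(2) Let `P` be a nondeterministic branching program with `m` contacts: the contact `j` is closed if
`f j = 1`. If `P` accepts only words of `L`, and at least a `2 ^ (-⌊N / 2 ^ (k ^ c)⌋)` fraction of the
words of `L` of length `N` that begin with `π` have an accepting path of length at most `k N`, where a
contact `j` counts `|W j|` times, then `m ≥ 2 ^ ⌊N / 2 ^ (k ^ c)⌋`.

(3) Let `C` be a circuit with the inputs `f j`. If `C` accepts only words of `L`, and at least a
`2 ^ (-⌊N / 2 ^ (k ^ c)⌋)` fraction of the words of `L` of length `N` that begin with `π` are accepted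
with a justification tree with at most `k N` leaves, where a leaf `j` counts `|W j|` times, then `C`
has at least `2 ^ ⌊N / 2 ^ (k ^ c)⌋` gates. -/
theorem result : ∃ L : List Bool → Prop, PolyTime L ∧ ∃ c : ℕ,
    (∀ ε : ℝ, 0 < ε → ∃ N₀ : ℕ, ∀ N ≥ N₀, ∀ (m : ℕ) (P : Prog m)
      (lab : Fin m → Option (Fin N × Bool)),
      (∀ x l, P.Path (fun j => test (lab j) x) P.source l P.target → L (List.ofFn x)) →
      (∀ x, L (List.ofFn x) → ∃ l, P.Path (fun j => test (lab j) x) P.source l P.target ∧
        (l.countP (fun j => (lab j).isSome) : ℝ) ≤
          N * (Real.log N) ^ ((1 : ℝ) / (c + 1))) →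
      (2 : ℝ) ^ ((N : ℝ) ^ (1 - ε)) ≤ m) ∧
    ∀ k : ℕ, 2 ≤ k → ∃ π : List Bool, ∀ N : ℕ, 2 ^ (k ^ c) ≤ N →
    ∀ (Y : Finset (Fin N)) (m : ℕ)
      (f : Fin m → (Fin N → Bool) → Bool) (W : Fin m → Finset (Fin N)),
      N ≤ k * Y.card → (∀ j, (W j).card * 2 ^ (k ^ c) ≤ N) →
      (∀ j x y, (∀ i, i ∉ Y ∨ i ∈ W j → x i = y i) → f j x = f j y) →
      (∀ P : Prog m,
        (∀ x l, P.Path (fun j => f j x) P.source l P.target → L (List.ofFn x)) →
        {x : Fin N → Bool | π <+: List.ofFn x ∧ L (List.ofFn x)}.ncard ≤
          2 ^ (N / 2 ^ (k ^ c)) * {x : Fin N → Bool | π <+: List.ofFn x ∧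
            ∃ l, P.Path (fun j => f j x) P.source l P.target ∧
              (l.map (fun j => (W j).card)).sum ≤ k * N}.ncard →
        2 ^ (N / 2 ^ (k ^ c)) ≤ m) ∧
      (∀ C : Circuit m,
        (∀ x, C.eval (fun j => f j x) = true → L (List.ofFn x)) →
        {x : Fin N → Bool | π <+: List.ofFn x ∧ L (List.ofFn x)}.ncard ≤
          2 ^ (N / 2 ^ (k ^ c)) * {x : Fin N → Bool | π <+: List.ofFn x ∧
            ∃ l, C.Just (fun j => f j x) C.out true l ∧
              (l.map (fun j => (W j).card)).sum ≤ k * N}.ncard →
        2 ^ (N / 2 ^ (k ^ c)) ≤ C.size) :=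
  ⟨Pool.Agent.PQ44.LL, Pool.Agent.PQ44.LL_poly, Pool.Agent.NBP.long⟩

end Pool.Agent.Results.MP_5f97e6_lc.ProofTreeTradeoff
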