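import Pool.Agent.PSY.CspA
import Pool.Agent.PSY.CspS

set_option autoImplicit false

/-!
# Almost no symmetry of an explicit problem is a symmetry of a small circuit for it

`csp` is the solvability of a system of constraints on the edges of an explicit cubic graph with
`t = 8 M ^ 2` nodes, each with five values (`n = 300 M ^ 2` input bits). If a circuit with `S`
symmetric gates is right with probability above 51 per cent on an explicit distribution, then at
most `60 ^ t 2 ^ (- n / 350000) (S + 1) ^ (2 (F + 1))` of the `60 ^ t` even permutations of the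
values at the nodes are symmetries of the circuit up to a set of gates with `F` wires into it.
-/

namespace Pool.Agent.Results.MP_5f97e6_lc.SmallCircuitSymmetries

open Pool.Agent.PSY Pool.Agent.NXL

theorem result (M : ℕ) [NeZero M] (hM : Odd M) :
    Nat.card (In M) = 300 * M ^ 2 ∧ Nat.card (Nd M → A5) = 60 ^ (8 * M ^ 2) ∧
    (∀ (a : Nd M → A5) (X : In M → Bool), csp (fun i => X (move a i)) = csp X) ∧
    csp (cinst (0 : Eg M → ZMod 2)) = true ∧ (∀ z : Vt M, csp (cinst (tw z)) = false) ∧
    ∀ (C : SymCircuit (In M)) (U : Finset C.Gate), (51 : ℝ) / 100 < success C →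
      Nat.card {a : Nd M → A5 // ∃ s : Equiv.Perm (In M), (∀ i, s i = move a i) ∧
          C.IsSymmetry U s} * 2 ^ (300 * M ^ 2 / 350000) ≤
        60 ^ (8 * M ^ 2) * (C.size + 1) ^ (2 * (C.wires U + 1)) :=
  ⟨card_In, card_A5_pow, csp_move, csp_zero, csp_twist,
    fun C U h => by rw [card_move]; exact csp_frac51 hM C h U⟩

end Pool.Agent.Results.MP_5f97e6_lc.SmallCircuitSymmetries
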